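import Pool.Agent.H32.SgA

namespace Pool.Agent.Results.MP_3d7070_lc.Superquad

open Pool.Agent.H32.Sg Filter

variable {r : ℕ}

def Tm (r m : ℕ) : ℕ := ((r + 1) / m - 1) * (r + 3)

def Ph (r m : ℕ) : ℕ := ∑ i ∈ Finset.range m, Tm r (i + 1)

def Safe (T : ℕ) (S : Finset (ZMod (r + 2))) (j : ZMod (r + 3)) : Prop :=
  ∀ t : ℕ, t < T → ∀ s ∈ S, fl (j + (t : ZMod (r + 3))) ≠ s + (t : ZMod (r + 2))

theorem place (S : Finset (ZMod (r + 2))) : ∃ j, Safe (Tm r S.card) S j := by
  classical
  obtain ⟨j, hj⟩ : ∃ j, j ∉ (S ×ˢ Finset.range ((r + 1) / S.card)).image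
      fun p => p.1 + (p.2 : ZMod (r + 2)) := by
    by_contra h
    push Not at h
    have h1 := Finset.card_le_card (fun x _ => h x : Finset.univ ⊆ _)
    have h2 := h1.trans Finset.card_image_le
    rw [Finset.card_product, Finset.card_range, Finset.card_univ, ZMod.card] at h2
    have := Nat.mul_div_le (r + 1) S.card
    omega
  refine ⟨(j.val : ℕ), fun t ht s hs e => hj (Finset.mem_image.2
    ⟨(s, (j.val + t) / (r + 3)), Finset.mem_product.2 ⟨hs, Finset.mem_range.2 ?_⟩, ?_⟩)⟩
  · have := j.val_lt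
    rw [Tm] at ht
    rw [Nat.div_lt_iff_lt_mul (by omega)]
    rcases h : (r + 1) / S.card with _ | g
    · simp [h] at ht
    · rw [h, Nat.add_sub_cancel] at ht
      rw [add_mul]; omega
  · rw [fl, ← Nat.cast_add, ZMod.val_natCast] at e
    have := congrArg (Nat.cast : ℕ → ZMod (r + 2)) (Nat.div_add_mod (j.val + t) (r + 3))
    have h0 : ((r + 3 : ℕ) : ZMod (r + 2)) = 1 := by
      rw [show r + 3 = r + 2 + 1 from rfl, Nat.cast_succ, ZMod.natCast_self, zero_add]
    rw [Nat.cast_add, Nat.cast_mul, h0, e, Nat.cast_add, ZMod.natCast_zmod_val] at this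
    linear_combination this

def cfg (S : Finset (ZMod (r + 2))) (o : Option (ZMod (r + 3))) : Set (St r × Bool) :=
  {x | (∃ s ∈ S, x = (some (.inl s), false)) ∨ ∃ j ∈ o, x = (some (.inr j), false)}

def W' (N : ℕ) (P : Set (St r × Bool)) : Prop := P.Subsingleton ∨ Win dl 2 N P

theorem W'.sub {N : ℕ} {P P' : Set (St r × Bool)} (h : W' N P) (s : P' ⊆ P) : W' N P' := by
  rcases P'.eq_empty_or_nonempty with rfl | n
  · exact Or.inl Set.subsingleton_empty
  · exact h.imp (fun h => h.anti s) fun h => h.sub s n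

theorem lower (N : ℕ) : ∀ (S : Finset (ZMod (r + 2))) o m T, S.card = m + 1 → T ≤ Tm r (m + 1) →
    (∀ j ∈ o, Safe T S j) → (o = none → T = 0) → W' N (cfg S o) → T + Ph r m ≤ N := by
  classical
  have base : ∀ (S : Finset (ZMod (r + 2))) o m T, S.card = m + 1 → (o = none → T = 0) →
      (cfg S o).Subsingleton → T + Ph r m = 0 := by
    intro S o m T h1 h2 h
    obtain ⟨s, hs⟩ := Finset.card_pos.1 (by omega : 0 < S.card)
    have : S.card ≤ 1 := Finset.card_le_one.2 fun a ha b hb => by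
      simpa using h (Or.inl ⟨a, ha, rfl⟩) (Or.inl ⟨b, hb, rfl⟩)
    obtain rfl : m = 0 := by omega
    rcases o with _ | j
    · simp [h2, Ph]
    · simpa using h (Or.inl ⟨s, hs, rfl⟩) (Or.inr ⟨j, rfl, rfl⟩)
  induction N with
  | zero => exact fun S o m T h1 _ _ h2 h => (base S o m T h1 h2 (h.resolve_right id)).le
  | succ N ih =>
    intro S o m T h1 h2 h3 h4 h
    rcases h with h | ⟨a, h⟩
    · rw [base S o m T h1 h4 h]; omega
    have h : ∀ d, W' N ((fun x => dl (dl x a) (some (false, d))) '' cfg S o) := fun d => by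
      rcases h with h | h
      · obtain ⟨x, hx⟩ := Set.ncard_eq_one.1 h
        rw [← Set.image_image (fun x => dl x (some (false, d))), hx]
        exact Or.inl (Set.subsingleton_singleton.image _)
      · exact Or.inr (h [some (false, d)] (by simp))
    have e : ∀ d x, dl (dl (x, false) a) (some (false, d)) =
        (bo d (al (a.elim false (·.1)) x), false) := fun _ _ => rfl
    generalize a.elim false (·.1) = b at e
    cases b
    · have := ih (S.image (· + 1)) (o.map (· + 1)) m (T - 1)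
        (by rw [Finset.card_image_of_injective _ (add_left_injective 1), h1]) (by omega) ?_
        (fun h => by rw [h4 (by simpa using h)]) ((h 0).sub ?_)
      · omega
      · intro j hj t ht s hs
        obtain ⟨j', hj', rfl⟩ := Option.mem_map.1 hj
        obtain ⟨s', hs', rfl⟩ := Finset.mem_image.1 hs
        have := h3 j' hj' (t + 1) (by omega) s' hs'
        simpa [add_assoc, add_comm (1 : ZMod _)] using this
      · rintro _ (⟨s, hs, rfl⟩ | ⟨j, hj, rfl⟩)
        · obtain ⟨s', hs', rfl⟩ := Finset.mem_image.1 hs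
          exact ⟨_, Or.inl ⟨s', hs', rfl⟩, e _ _⟩
        · obtain ⟨j', hj', rfl⟩ := Option.mem_map.1 hj
          exact ⟨_, Or.inr ⟨j', hj', rfl⟩, e _ _⟩
    have sb : ∀ d, W' N (cfg (S.erase 0 ∪ o.toFinset.image fl) (if 0 ∈ S then some d else none)) :=
      fun d => (h d).sub (by
        rintro _ (⟨s, hs, rfl⟩ | ⟨j, hj, rfl⟩)
        · rcases Finset.mem_union.1 hs with hs | hs
          · obtain ⟨a1, a2⟩ := Finset.mem_erase.1 hs
            exact ⟨_, Or.inl ⟨s, a2, rfl⟩, by simp [e, al, a1, bo]⟩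
          · obtain ⟨j, hj, rfl⟩ := Finset.mem_image.1 hs
            exact ⟨_, Or.inr ⟨j, by simpa using hj, rfl⟩, e _ _⟩
        · split_ifs at hj with h0
          · cases hj
            exact ⟨_, Or.inl ⟨0, h0, rfl⟩, by simp [e, al, bo]⟩
          · cases hj)
    have post : ∀ m', (S.erase 0 ∪ o.toFinset.image fl).card + (if 0 ∈ S then 1 else 0) = m' + 1 →
        Ph r m' ≤ N := by
      intro m' hm
      by_cases h0 : 0 ∈ S
      · simp only [h0, if_true] at hm sb
        rcases m' with _ | m'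
        · simp [Ph]
        obtain ⟨j, hj⟩ := place (S.erase 0 ∪ o.toFinset.image fl)
        rw [Nat.succ.inj hm] at hj
        have := ih _ _ m' _ (Nat.succ.inj hm) le_rfl (by rintro _ ⟨⟩; exact hj) (by simp) (sb j)
        rw [Ph, Finset.sum_range_succ, add_comm]
        exact this
      · simp only [h0, if_false] at hm sb
        simpa using ih _ _ m' 0 hm (by simp) (by simp) (by simp) (sb 0)
    have hc : (S.erase 0).card + (if 0 ∈ S then 1 else 0) = m + 1 := by
      rw [Finset.card_erase_eq_ite]; split_ifs <;> omega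
    rcases o with _ | j
    · have := post m (by simpa using hc)
      rw [h4 rfl]; omega
    by_cases hj : fl j ∈ S.erase 0
    · have := post m (by simpa [Finset.insert_eq_of_mem hj] using hc)
      have : T = 0 := by
        by_contra h0
        exact h3 j rfl 0 (by omega) _ (Finset.mem_of_mem_erase hj) (by simp)
      omega
    · have := post (m + 1) (by simp [Finset.card_insert_of_notMem hj]; omega)
      rw [Ph, Finset.sum_range_succ, ← Ph] at this
      omega

theorem big (C : ℕ) : ∃ r, C ≤ r ∧ C * (4 * r + 12) ^ 2 ≤ Ph r (r + 1) := by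
  obtain ⟨M, hM⟩ := (Real.tendsto_sum_range_one_div_nat_succ_atTop.eventually_ge_atTop
    (48 * C + 2 : ℝ)).exists
  refine ⟨C + M, by omega, ?_⟩
  generalize hr : C + M = r
  have h1 : Ph r M ≤ Ph r (r + 1) :=
    Finset.sum_le_sum_of_subset (Finset.range_mono (by omega))
  refine le_trans ?_ h1
  have h2 : ∑ i ∈ Finset.range M, ((r + 1) * (1 / (i + 1 : ℝ)) - 2) * (r + 3) ≤ Ph r M := by
    rw [Ph, Nat.cast_sum]
    refine Finset.sum_le_sum fun i _ => ?_
    rw [Tm, Nat.cast_mul]
    refine mul_le_mul ?_ (by simp) (by positivity) (by positivity)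
    have a := Nat.lt_floor_add_one (((r + 1 : ℕ) : ℝ) / (i + 1 : ℕ))
    rw [Nat.floor_div_eq_div] at a
    have b : (((r + 1) / (i + 1) : ℕ) : ℝ) ≤ ((r + 1) / (i + 1) - 1 : ℕ) + 1 := by
      exact_mod_cast (by omega : (r + 1) / (i + 1) ≤ (r + 1) / (i + 1) - 1 + 1)
    push_cast at a
    rw [mul_one_div]
    linarith
  rw [← Finset.sum_mul, Finset.sum_sub_distrib, ← Finset.mul_sum] at h2
  have h3 : (M : ℝ) ≤ r := by exact_mod_cast (by omega : M ≤ r)
  have h4 : (r + 1 : ℝ) * (48 * C + 2) ≤ (r + 1) * ∑ i ∈ Finset.range M, 1 / (i + 1 : ℝ) :=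
    mul_le_mul_of_nonneg_left hM (by positivity)
  simp only [Finset.sum_const, Finset.card_range, nsmul_eq_mul] at h2
  have h5 : (16 * C * (r + 3) : ℝ) ≤ (r + 1) * ∑ i ∈ Finset.range M, 1 / (i + 1 : ℝ) - M * 2 := by
    have : (0 : ℝ) ≤ C * r := by positivity
    nlinarith
  have := (mul_le_mul_of_nonneg_right h5 (by positivity : (0 : ℝ) ≤ r + 3)).trans h2
  exact_mod_cast (by linarith : (C : ℝ) * (4 * r + 12) ^ 2 ≤ Ph r M)

theorem result : ∃ k, 2 ≤ k ∧ ∃ (Q A : ℕ → Type) (_ : ∀ i, Fintype (Q i)) (_ : ∀ i, Fintype (A i))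
    (δ : ∀ i, Q i → A i → Q i), (∀ i, Nonempty (Q i) ∧ Nonempty (A i)) ∧
    (∀ i, ∃ N, Win (δ i) k N Set.univ) ∧ Tendsto (fun i => Fintype.card (Q i)) atTop atTop ∧
    Tendsto (fun i => (len (δ i) k : ℝ) / (Fintype.card (Q i) : ℝ) ^ 2) atTop atTop := by
  choose r h1 h2 using big
  have hc : ∀ r, Fintype.card (St r × Bool) = 4 * r + 12 := fun r => by
    simp [ZMod.card]; omega
  refine ⟨2, le_rfl, fun i => St (r i) × Bool, fun i => Option (Bool × ZMod (r i + 3)),
    fun _ => inferInstance, fun _ => inferInstance, fun _ => dl, fun _ => ⟨⟨(none, true)⟩, ⟨none⟩⟩,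
    fun _ => win_univ, tendsto_atTop_mono (fun i => ?_) tendsto_id,
    tendsto_atTop_mono (fun i => ?_) tendsto_natCast_atTop_atTop⟩
  · have := h1 i
    simp only [hc, id]; omega
  · have := lower (r := r i) _ Finset.univ none (r i + 1) 0 (by simp [ZMod.card]) (by simp) (by simp) (by simp)
      (W'.sub (Or.inr (Nat.sInf_mem win_univ :)) (Set.subset_univ _))
    rw [hc, le_div_iff₀ (by positivity)]
    exact_mod_cast (h2 i).trans (by rw [zero_add] at this; exact this)

end Pool.Agent.Results.MP_3d7070_lc.Superquad
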